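import Pool.Agent.COV.StmtsB

set_option autoImplicit false

namespace Pool.Agent.COV.H14

open Polynomial Pool.Agent.KDT.Z Pool.Agent.COV

section aux

variable {k U : Type} [Field k] [Field U] [Algebra k U]

theorem fix_trans [IsAlgClosed k] (x : U) (hx : x ∉ (algebraMap k U).range) :
    Transcendental k x := by
  intro h
  have hi : IsIntegral k x := isAlgebraic_iff_isIntegral.1 h
  have h1 : (minpoly k x).degree = 1 :=
    IsAlgClosed.degree_eq_one_of_irreducible k (minpoly.irreducible hi)
  exact hx (minpoly.mem_range_of_degree_eq_one k x h1)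

theorem fix_ext (ev ev' : RatFunc k →ₐ[k] U) (h : ev RatFunc.X = ev' RatFunc.X) (φ : RatFunc k) :
    ev φ = ev' φ := by
  have h1 : ∀ (e : RatFunc k →ₐ[k] U) (p : k[X]),
      e (algebraMap k[X] (RatFunc k) p) = aeval (e RatFunc.X) p := by
    intro e p
    rw [← RatFunc.aeval_X_left_eq_algebraMap p]
    exact (Polynomial.aeval_algHom_apply e RatFunc.X p).symm
  rw [← RatFunc.num_div_denom φ, map_div₀, map_div₀, h1, h1, h1, h1, h]

end aux

theorem fix : FixStmt := by
  intro k U _ _ _ f g henv
  have := henv.kc
  have := henv.oc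
  have := henv.ch
  have hev : ∀ (x : U) (hx : Transcendental k x), ∃ ev : RatFunc k →ₐ[k] U, ev RatFunc.X = x ∧
      ∀ φ : RatFunc k, ev φ = (RatFunc.algEquivOfTranscendental x hx φ : U) := by
    intro x hx
    refine ⟨(IntermediateField.val _).comp
      (RatFunc.algEquivOfTranscendental x hx).toAlgHom, ?_, ?_⟩
    · show ((RatFunc.algEquivOfTranscendental x hx RatFunc.X : IntermediateField.adjoin k {x}) : U)
        = x
      rw [RatFunc.algEquivOfTranscendental_X]
    · intro φ; rfl
  refine ⟨?_, ?_, ?_⟩
  · intro x hx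
    obtain ⟨ev, h, -⟩ := hev x (fix_trans x hx)
    exact ⟨ev, h⟩
  · intro ev hx u hu
    obtain ⟨x, hxe⟩ : ∃ x : U, x = ev RatFunc.X := ⟨_, rfl⟩
    rw [← hxe] at hx hu
    have ht := fix_trans x hx
    have halg : Algebra.IsAlgebraic (IntermediateField.adjoin k {x}) U := henv.td x hx
    have : CharZero (IntermediateField.adjoin k {x}) := charZero_of_injective_algebraMap
      (algebraMap k (IntermediateField.adjoin k {x})).injective
    have : IsAlgClosure (IntermediateField.adjoin k {x}) U := ⟨henv.oc, halg⟩
    have : Normal (IntermediateField.adjoin k {x}) U := IsAlgClosure.normal _ _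
    have : IsGalois (IntermediateField.adjoin k {x}) U := ⟨⟩
    have h1 : u ∈ Set.range (algebraMap (IntermediateField.adjoin k {x}) U) := by
      rw [InfiniteGalois.mem_range_algebraMap_iff_fixed]
      intro σ
      have h2 := hu (AlgEquiv.restrictScalars k σ)
      apply h2
      exact σ.commutes ⟨x, IntermediateField.mem_adjoin_simple_self k x⟩
    obtain ⟨v, hv⟩ := h1
    obtain ⟨ev', h3, h4⟩ := hev x ht
    refine ⟨(RatFunc.algEquivOfTranscendental x ht).symm v, ?_⟩
    rw [fix_ext ev ev' (by rw [← hxe, h3]), h4, AlgEquiv.apply_symm_apply, ← hv]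
    rfl
  · intro x x' hx hx'
    have ht := fix_trans x hx
    have ht' := fix_trans x' hx'
    obtain ⟨ev, h3, h4⟩ := hev x ht
    obtain ⟨ev', h3', h4'⟩ := hev x' ht'
    have hE : IsAlgClosure (IntermediateField.adjoin k {x}) U := ⟨henv.oc, henv.td x hx⟩
    have hE' : IsAlgClosure (IntermediateField.adjoin k {x'}) U := ⟨henv.oc, henv.td x' hx'⟩
    let e : IntermediateField.adjoin k {x} ≃ₐ[k] IntermediateField.adjoin k {x'} :=
      (RatFunc.algEquivOfTranscendental x ht).symm.trans
        (RatFunc.algEquivOfTranscendental x' ht')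
    have hτ' := fun z => IsAlgClosure.equivOfEquiv_algebraMap (R := IntermediateField.adjoin k {x'})
      (S := IntermediateField.adjoin k {x}) U U e.toRingEquiv z
    obtain ⟨τ, hτ⟩ : ∃ τ : U ≃+* U, ∀ z : RatFunc k, τ (ev z) = ev' z := by
      refine ⟨IsAlgClosure.equivOfEquiv (R := IntermediateField.adjoin k {x'})
        (S := IntermediateField.adjoin k {x}) U U e.toRingEquiv, ?_⟩
      intro z
      have h5 := hτ' (RatFunc.algEquivOfTranscendental x ht z)
      have h6 : e.toRingEquiv (RatFunc.algEquivOfTranscendental x ht z) =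
          RatFunc.algEquivOfTranscendental x' ht' z := by
        show e (RatFunc.algEquivOfTranscendental x ht z) = _
        simp [e]
      rw [h6] at h5
      rw [h4, h4']
      exact h5
    refine ⟨AlgEquiv.ofRingEquiv (f := τ) (fun c => ?_), ?_⟩
    · have h5 := hτ (algebraMap k _ c)
      rw [AlgHom.commutes, AlgHom.commutes] at h5
      exact h5
    · show τ x = x'
      rw [← h3, hτ, h3']

end Pool.Agent.COV.H14
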