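import Pool.Agent.COV.StmtsB
import Pool.Agent.KDT.StmtsM

set_option autoImplicit false

namespace Pool.Agent.COV.H14

open Polynomial Pool.Agent.KDT.Z Pool.Agent.COV

section aux

variable {k U : Type} [Field k] [Field U] [Algebra k U]

theorem hom_range [IsAlgClosed k] (p : k[X]) (hp : p ≠ 0) (x : U)
    (hx : (p.map (algebraMap k U)).eval x = 0) : x ∈ (algebraMap k U).range := by
  have hroot : aeval x p = 0 := by
    rw [← eval_map_algebraMap]; exact hx
  have hi : IsIntegral k x := isAlgebraic_iff_isIntegral.1 ⟨p, hp, hroot⟩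
  have h1 : (minpoly k x).degree = 1 :=
    IsAlgClosed.degree_eq_one_of_irreducible k (minpoly.irreducible hi)
  exact minpoly.mem_range_of_degree_eq_one k x h1

theorem hom_pA (t : Fin 4 → k) : pA (emb U t) = (pA t).map (algebraMap k U) := by
  simp [pA, emb]

theorem hom_pB (t : Fin 4 → k) : pB (emb U t) = (pB t).map (algebraMap k U) := by
  simp [pB, emb]

theorem hom_pA_ne {F : Type} [Field F] (q : Fin 4 → F) : pA q ≠ 0 := by
  intro h
  have h2 := congrArg (fun p : F[X] => p.coeff 2) h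
  simp [pA] at h2

theorem hom_on {f : k[X]} {g : U[X]} (hg : g = f.map (algebraMap k U)) (t : Fin 4 → k)
    (h : On f t) : On g (emb U t) := by
  unfold On at h ⊢
  rw [hom_pA, hom_pB, hg, ← Polynomial.map_pow, ← Polynomial.map_sub]
  exact Polynomial.map_dvd _ h

theorem hom_zero [IsAlgClosed k] (d : Derivation k U U) (s : k[X]) {g : U[X]} (t : Fin 4 → k)
    (z w : Pt g) (h : Pts (emb U t) z w) : om d s z = 0 ∧ om d s w = 0 := by
  have key : ∀ x : U, (pA (emb U t)).eval x = 0 → d x = 0 := by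
    intro x hx
    rw [hom_pA] at hx
    obtain ⟨y, rfl⟩ := hom_range (pA t) (hom_pA_ne t) x hx
    exact d.map_algebraMap y
  have hz : d z.a = 0 := by
    apply key; rw [h.1]; simp
  have hw : d w.a = 0 := by
    apply key; rw [h.1]; simp
  constructor
  · unfold om; rw [hz]; simp
  · unfold om; rw [hw]; simp

theorem hom_coef {F : Type} [Field F] (q : Fin 4 → F) (a b : F)
    (h : pA q = (X - C a) * (X - C b)) : q 0 = a + b ∧ q 1 = a * b := by
  have h1 : pA q = X ^ 2 - C (a + b) * X + C (a * b) := by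
    rw [h]; simp only [C_add, C_mul]; ring
  unfold pA at h1
  constructor
  · have h2 := congrArg (fun p : F[X] => p.coeff 1) h1
    simp [coeff_X, coeff_C, coeff_X_pow] at h2
    linear_combination -h2
  · have h2 := congrArg (fun p : F[X] => p.coeff 0) h1
    simp [coeff_X, coeff_C, coeff_X_pow] at h2
    exact h2

theorem hom_sig_on {f : k[X]} {g : U[X]} (hg : g = f.map (algebraMap k U)) (σ : U ≃ₐ[k] U)
    (z : Pt g) : (σ z.b) ^ 2 = g.eval (σ z.a) := by
  have h1 : ∀ x : U, g.eval (σ x) = σ (g.eval x) := by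
    intro x
    rw [hg, eval_map_algebraMap, eval_map_algebraMap]
    exact (Polynomial.aeval_algHom_apply (σ : U →ₐ[k] U) x f)
  rw [h1, ← z.on, map_pow]

theorem hom_om_sig (d : Derivation k U U) (s : k[X]) {g : U[X]} (σ : U ≃ₐ[k] U) (u : U)
    (hu : ∀ a, d (σ a) = u * σ (d a)) (z z' : Pt g) (ha : z'.a = σ z.a) (hb : z'.b = σ z.b) :
    om d s z' = u * σ (om d s z) := by
  unfold om
  have h1 : aeval (σ z.a) s = σ (aeval z.a s) :=
    (Polynomial.aeval_algHom_apply (σ : U →ₐ[k] U) z.a s)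
  rw [ha, hb, hu, h1, map_div₀, map_mul]
  ring

theorem hom_zr (Φ : MvPolynomial (Fin 2) k) (σ : U ≃ₐ[k] U) (s p : U) (h : Zr Φ s p) :
    Zr Φ (σ s) (σ p) := by
  unfold Zr at h ⊢
  have h1 : (MvPolynomial.aeval ![σ s, σ p] : MvPolynomial (Fin 2) k →ₐ[k] U) =
      (σ : U →ₐ[k] U).comp (MvPolynomial.aeval ![s, p]) := by
    apply MvPolynomial.algHom_ext
    intro i
    fin_cases i <;> simp
  rw [h1]
  simp [h]

end aux

theorem hom (prs : PrsStmt) (htr : HtrStmt) (der : DerStmt) (ab2 : Ab2Stmt) (inv : InvStmt)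
    (_cma : KDT.Z.CmaStatement) : HomStmt := by
  intro n
  obtain ⟨n', hn'⟩ := htr n
  refine ⟨n', ?_⟩
  intro k U _ _ _ f g J _ th cl act Jk q H0 t0 hc Φ hΦ hΦn hΦz
  obtain ⟨H, t1, Φ', ht1, hrr, hro, hΦ', hΦ'n, hz', hH, hJ, hst, htrans⟩ :=
    hn' k U f g J th cl act Jk q H0 t0 hc Φ hΦ hΦn hΦz
  have henv := hc.env
  have := henv.kc
  have := henv.oc
  have := henv.ch
  have : CharZero U := charZero_of_injective_algebraMap (algebraMap k U).injective
  obtain ⟨d, hd⟩ := der k U f g henv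
  obtain ⟨s, hs0, hs1, hs⟩ := inv k U f g J th cl act Jk q H0 t0 hc d hd
  have hjk := hc.jk
  have hjg := hc.jk.toJG
  obtain ⟨prs1, prs2⟩ := prs U g J th cl hjg
  have hont1 : On g (emb U t1) := hom_on henv.gm t1 ht1
  have hcomp := hjg.comp q (emb U t1) hc.on hont1 hrr hro
  obtain ⟨z1, w1, hp1, hcl1⟩ := prs1 _ hcomp.1
  obtain ⟨zq, wq, hpq, -⟩ := prs1 _ hc.on
  obtain ⟨zt, wt, hpt, -⟩ := prs1 _ hont1
  have hsum1 : om d s z1 + om d s w1 = 0 := by
    have h1 := ab2 k U f g henv d s q (emb U t1) hs1 hc.on hont1 hrr hro zq wq zt wt z1 w1 hpq hpt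
      hp1
    rw [hs zq wq hpq, (hom_zero d s t1 zt wt hpt).1, (hom_zero d s t1 zt wt hpt).2] at h1
    rw [← h1]; ring
  have hcoef := hom_coef _ _ _ hp1.1
  -- elements outside Jk
  have key : ∀ z w : Pt g, th z + th w ∈ H → th z + th w ∉ Jk →
      ∃ σ : U ≃ₐ[k] U, (z.a = σ z1.a ∧ z.b = σ z1.b ∧ w.a = σ w1.a ∧ w.b = σ w1.b) ∨
        (w.a = σ z1.a ∧ w.b = σ z1.b ∧ z.a = σ w1.a ∧ z.b = σ w1.b) := by
    intro z w h1 h2
    obtain ⟨σ, hσ⟩ := htrans _ h1 h2
    refine ⟨σ, ?_⟩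
    have hne : th z + th w ≠ 0 := fun h => h2 (h ▸ Jk.zero_mem)
    rw [hcl1, map_add,
      hjk.act_th σ z1 ⟨σ z1.a, σ z1.b, hom_sig_on henv.gm σ z1⟩ rfl rfl,
      hjk.act_th σ w1 ⟨σ w1.a, σ w1.b, hom_sig_on henv.gm σ w1⟩ rfl rfl] at hσ
    rcases hjg.th_pair _ _ _ _ hσ hne with ⟨h3, h4⟩ | ⟨h3, h4⟩
    · left; subst h3; subst h4; exact ⟨rfl, rfl, rfl, rfl⟩
    · right; subst h3; subst h4; exact ⟨rfl, rfl, rfl, rfl⟩
  refine ⟨H, d, s, hst, ⟨z1, w1, ?_, ?_⟩, hs0, hs1, hd, ?_, ⟨Φ', hΦ', hΦ'n, ?_⟩⟩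
  · rw [← hcl1]; exact hH
  · rw [← hcl1]; exact hJ
  · intro z w hzw
    by_cases h0 : th z + th w = 0
    · have h1 : th w = th z.neg := by
        rw [hjg.th_neg]; exact (neg_eq_of_add_eq_zero_right h0).symm
      have h2 := hjg.th_inj _ _ h1
      subst h2
      unfold om Pt.neg
      simp [div_neg]
    by_cases hk : th z + th w ∈ Jk
    · obtain ⟨q', hq', hpts, hclq'⟩ := prs2 z w h0
      rcases (hjk.mem_k _).1 hk with h1 | ⟨z0, -, h1⟩ | ⟨t, ht, ht', h1⟩
      · exact absurd h1 h0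
      · exact absurd (hclq'.trans h1) (hjg.cl_th q' z0 hq')
      · have h2 : q' = emb U t := hjg.cl_inj _ _ hq' ht' (hclq'.trans h1)
        subst h2
        rw [(hom_zero d s t z w hpts).1, (hom_zero d s t z w hpts).2, add_zero]
    · obtain ⟨σ, hσ⟩ := key z w hzw hk
      obtain ⟨u, -, hu⟩ := hd.2 σ
      have h3 : u * σ (om d s z1) + u * σ (om d s w1) = 0 := by
        rw [← mul_add, ← map_add, hsum1, map_zero, mul_zero]
      rcases hσ with ⟨ha, hb, ha', hb'⟩ | ⟨ha, hb, ha', hb'⟩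
      · rw [hom_om_sig d s σ u hu z1 z ha hb, hom_om_sig d s σ u hu w1 w ha' hb', h3]
      · rw [hom_om_sig d s σ u hu z1 w ha hb, hom_om_sig d s σ u hu w1 z ha' hb', add_comm, h3]
  · intro z w hzw hk
    obtain ⟨σ, hσ⟩ := key z w hzw hk
    have h1 := hom_zr Φ' σ _ _ hz'
    rw [hcoef.1, hcoef.2, map_add, map_mul] at h1
    rcases hσ with ⟨ha, hb, ha', hb'⟩ | ⟨ha, hb, ha', hb'⟩
    · rw [ha, ha']; exact h1
    · rw [ha, ha', add_comm, mul_comm]; exact h1

end Pool.Agent.COV.H14
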