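import Pool.Agent.COV.StmtsD
import Pool.Agent.Helper75_TTC.LO6

set_option autoImplicit false

/-! Squad COV, row SI9 (MP_160b6c_nt): a root of the sextic with simple reduction (helper14). -/

namespace Pool.Agent.COV.H14

open Polynomial NumberField Pool.Agent.TTC
open Pool.Agent.TTC.H75 (Ov mv mv_max root_le)

theorem sext_c6 {R : Type} [CommRing R] (a : Fin 7 → R) : (sext a).coeff 6 = a 0 := by
  simp [sext, coeff_X, coeff_C]

theorem sub_val {K : Type} [Field K] (w : AbsoluteValue K ℝ) (hna : IsNonarchimedean w)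
    (x : Ov w hna) : (Ov w hna).subtype x = x.1 := rfl

theorem sext_deg {K : Type} [Field K] (a : Fin 7 → K) (h : a 0 ≠ 0) :
    (sext a).natDegree = 6 := by
  unfold sext
  compute_degree!

/-- the proof, for a given residue field -/
theorem core9 (hN : TTC.Na6Stmt) (hN7 : TTC.Na7Stmt) (hC : TTC.Cr7Stmt) (K : Type) [Field K]
    (w : AbsoluteValue K ℝ) (hna : IsNonarchimedean w) (a : Fin 7 → K) (j m : ℕ)
    (ha : ∀ i, w (a i) ≤ 1) (hd : w (d6 a) < 1) (he : w (e7 j m a) = 1) (hs : (sext a).Splits)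
    (κ : Type) [Field κ] (π : Ov w hna →+* κ) (hker : ∀ x : Ov w hna, π x = 0 ↔ w x.1 < 1) :
    ∃ α : K, (sext a).eval α = 0 ∧ w ((derivative (sext a)).eval α) = 1 := by
  set ρ : Ov w hna →+* AlgebraicClosure κ := (algebraMap κ (AlgebraicClosure κ)).comp π with hρ
  have hρ0 : ∀ x : Ov w hna, ρ x = 0 ↔ w x.1 < 1 := by
    intro x
    rw [← hker x]
    constructor
    · intro h
      exact (algebraMap κ (AlgebraicClosure κ)).injective (by rw [map_zero]; exact h)
    · intro h
      show (algebraMap κ (AlgebraicClosure κ)) (π x) = 0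
      rw [h, map_zero]
  set aO : Fin 7 → Ov w hna := fun i => ⟨a i, ha i⟩ with haO
  have aOK : (fun i => (Ov w hna).subtype (aO i)) = a := rfl
  obtain ⟨hs1, hd1, -, -⟩ := hN (Ov w hna) K (Ov w hna).subtype aO
  obtain ⟨hs2, hd2, -, -⟩ := hN (Ov w hna) (AlgebraicClosure κ) ρ aO
  have he1 := hN7 (Ov w hna) K (Ov w hna).subtype aO j m
  have he2 := hN7 (Ov w hna) (AlgebraicClosure κ) ρ aO j m
  rw [aOK] at hs1 hd1 he1
  have hd6 : d6 (fun i => ρ (aO i)) = 0 := by
    rw [hd2, hρ0, ← sub_val, ← hd1]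
    exact hd
  have he7 : e7 j m (fun i => ρ (aO i)) ≠ 0 := by
    rw [he2]
    intro h
    have h1 := (hρ0 _).1 h
    rw [← sub_val, ← he1, he] at h1
    exact lt_irrefl _ h1
  have he7' := he7
  unfold e7 at he7'
  have h6a := left_ne_zero_of_mul (left_ne_zero_of_mul he7')
  have h6 : (6 : AlgebraicClosure κ) ≠ 0 := left_ne_zero_of_mul h6a
  have ha0 : ρ (aO 0) ≠ 0 := right_ne_zero_of_mul h6a
  obtain ⟨-, -, z, hz1, hz2⟩ := hC.1 (AlgebraicClosure κ) _ j m h6 ha0 hd6 he7
  have hw0 : w (a 0) = 1 := by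
    refine le_antisymm (ha 0) (not_lt.1 fun h => ha0 ((hρ0 _).2 h))
  have hne0 : a 0 ≠ 0 := fun h => by
    rw [h, map_zero] at hw0
    norm_num at hw0
  have hdeg : (sext a).natDegree = 6 := sext_deg a hne0
  have hlc : (sext a).leadingCoeff = a 0 := by
    rw [leadingCoeff, hdeg]
    exact sext_c6 _
  have hne : sext a ≠ 0 := by
    rw [← leadingCoeff_ne_zero, hlc]
    exact hne0
  classical
  -- the roots in the valuation ring
  let b : K → Ov w hna := fun α => if h : w α ≤ 1 then ⟨α, h⟩ else 0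
  have hb : ∀ α : K, (sext a).eval α = 0 → ((b α : Ov w hna) : K) = α := by
    intro α hα
    have h1 : w α ≤ 1 := root_le w hna a ha hw0 α hα
    have : b α = ⟨α, h1⟩ := dif_pos h1
    rw [this]
  have hprod : sext aO = C (aO 0) * ((sext a).roots.map fun α => X - C (b α)).prod := by
    apply Polynomial.map_injective (Ov w hna).subtype Subtype.val_injective
    rw [← hs1, Polynomial.map_mul, Polynomial.map_multiset_prod, Multiset.map_map]
    have h2 : ((sext a).roots.map ((Polynomial.map (Ov w hna).subtype) ∘ fun α => X - C (b α))) =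
        ((sext a).roots.map fun α => X - C α) := by
      refine Multiset.map_congr rfl fun α hα => ?_
      have h3 := hb α ((mem_roots hne).1 hα)
      have h4 : (Ov w hna).subtype (b α) = α := h3
      simp only [Function.comp_apply, Polynomial.map_sub, map_X, map_C, h4]
    rw [h2, map_C]
    have h5 : (Ov w hna).subtype (aO 0) = a 0 := rfl
    rw [h5, ← hlc]
    exact hs.eq_prod_roots
  have hev : (sext fun i => ρ (aO i)).eval z = ρ (aO 0) *
      ((sext a).roots.map fun α => z - ρ (b α)).prod := by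
    rw [hs2, hprod, Polynomial.map_mul, Polynomial.map_multiset_prod, Multiset.map_map, map_C,
      eval_mul, eval_C, ← coe_evalRingHom, map_multiset_prod, Multiset.map_map]
    refine congrArg (fun s => ρ (aO 0) * Multiset.prod s) ?_
    refine Multiset.map_congr rfl fun α _ => ?_
    simp
  rw [hz1] at hev
  have h0 := (mul_eq_zero.1 hev.symm).resolve_left ha0
  obtain ⟨α, hα, hα2⟩ := Multiset.mem_map.1 (Multiset.prod_eq_zero_iff.1 h0)
  have hαr : (sext a).eval α = 0 := (mem_roots'.1 hα).2
  refine ⟨α, hαr, ?_⟩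
  have hzα : z = ρ (b α) := sub_eq_zero.1 hα2
  -- the derivative
  have h1 : ρ ((derivative (sext aO)).eval (b α)) = (derivative (sext fun i => ρ (aO i))).eval z := by
    rw [hs2, hzα, derivative_map, eval_map, eval₂_at_apply]
  have h2 : (Ov w hna).subtype ((derivative (sext aO)).eval (b α)) =
      (derivative (sext a)).eval α := by
    have h3 : (Ov w hna).subtype (b α) = α := hb α hαr
    rw [hs1, derivative_map]
    conv_rhs => rw [← h3]
    rw [eval_map, eval₂_at_apply]
  rw [← h2]
  refine le_antisymm ((derivative (sext aO)).eval (b α)).2 (not_lt.1 fun h => hz2 ?_)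
  rw [← h1, hρ0]
  exact h

/-- **Row SI9.** -/
theorem si9 (hN : TTC.Na6Stmt) (hN7 : TTC.Na7Stmt) (hC : TTC.Cr7Stmt) : Si9Stmt := by
  intro K _ _ v a j m ha hd he hs
  have hna : IsNonarchimedean v.val := fun x y => FinitePlace.add_le v x y
  haveI hmax : (mv v.val hna).IsMaximal := mv_max v.val hna
  letI : Field (Ov v.val hna ⧸ mv v.val hna) := Ideal.Quotient.field _
  exact core9 hN hN7 hC K v.val hna a j m ha hd he hs (Ov v.val hna ⧸ mv v.val hna)
    (Ideal.Quotient.mk (mv v.val hna)) (fun x => Ideal.Quotient.eq_zero_iff_mem)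

end Pool.Agent.COV.H14
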